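import Mathlib
import Pool.Agent.K1H84.CA.Null
import Pool.Agent.K1H46.CP.Vio
import Pool.Agent.K1H22.CP.CP_IND
import Pool.Agent.K1H22.CP.CP_TRI
import Pool.Agent.K1H4.CP.CP_DBL
import Pool.Agent.K1H4.CP.CP_CNT
import Pool.Agent.K1H10.CP.Smo
import Pool.Agent.K1H26.CP.CP_EIS
import Pool.Agent.K1H58.CP_POW
import Pool.Agent.K1H58.CP_SML
import Pool.Agent.K1H61.CP.Sqf
import Pool.Agent.K1H69.CP.FIX
import Pool.Agent.K1H69.CP.MID
import Pool.Agent.K1H89.CP.HGT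
import Pool.Agent.K1H92.CP.Cls
import Pool.Agent.R365.QP.VLow
import Pool.Agent.R365.QP.QUp
import Pool.Agent.R365.QP.DiscP
import Pool.Agent.R365.QP.CountP
import Pool.Agent.R365.QP.CoprP
import Pool.Agent.R365.QP.HsumP
import Pool.Agent.R365.QP.RootP
import Pool.Agent.R365.QP.SqP
import Pool.Agent.R365.QP.Rad2P
import Pool.Agent.R365.QP.JupP
import Pool.Agent.R365.QP.LowcP

/-!
# The uniform abc inequality for the quadratic and cubic approximations of typical points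

For `x` of degree `n = 2` or `n = 3` let `K = ℚ(x)`, and let `H`, `N` be the height and the conductor of
the triple `(x, 1 - x, -1)` and `δ` the root discriminant of `K`. We show that the uniform abc inequality
holds in the sharp form `H = (δ N) ^ (1 / (2 n + 1) + o(1))` at the approximations of degree `n` of
typical points:

(1) Let `φ` be any map from the algebraic numbers to a metric space `M`. There is a set `E` of
`s`-dimensional Hausdorff measure zero such that for all `ξ` outside `E`, all `κ > 1 / (2 n + 1)` and all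
`c`, `A`, only finitely many `x` of degree `n` with `dist(ξ, φ x) ≤ A H ^ (-n (n + 1) / s + η)` violate
`H ≤ exp(c) (δ N) ^ κ`, where `η > 0` depends on `κ` and `s` only; and for all `ε > 0` all but finitely
many `x` of degree `n` with `dist(ξ, φ x) ≤ A H ^ (-n (n + 1) / s)` satisfy
`(δ N) ^ (1 - ε) ≤ H ^ (2 n + 1) ≤ (δ N) ^ (1 + ε)`.
(2) In particular, for almost every real number `ξ`, all but finitely many of the `x` of degree `n` with
`|ξ - x| ≤ A H ^ (-n (n + 1))` satisfy this; and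
(3) for almost every complex number `ξ`, all but finitely many of those with
`|ξ - x| ≤ A H ^ (-n (n + 1) / 2)`.

The exponents are those of the metric theory of approximation by algebraic numbers: for almost every
real `ξ` there are infinitely many `x` of degree `n` with `|ξ - x| ≤ A H ^ (-n (n + 1))` for some `A`
(Sprindzhuk, Beresnevich).

The proof: the violators with `H ≤ B` are at most `M B ^ (n (n + 1) - ν)` (`K1H46.CP.vio_up`, the main
step of `CubicPointsSharp.lean` of helper46, and `R365.QP.vio_up` of `QuadraticPointsSharp.lean`), and a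
Borel-Cantelli argument for Hausdorff measures. The lower bound for `H` holds for all but finitely many
`x`.
-/

set_option autoImplicit false

namespace Pool.Agent.Results.MP_6e34ef_nt.ApproximationsSharp

open NumberField IsDedekindDomain MeasureTheory

section Defs

variable {K : Type} [Field K] [NumberField K]

/-- `log H(x_0, x_1, x_2)` -/
noncomputable def height (x : Fin 3 → K) : ℝ :=
  (∑ w : InfinitePlace K, (w.mult : ℝ) * Real.log (max (w (x 0)) (max (w (x 1)) (w (x 2)))) +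
    ∑ᶠ v : HeightOneSpectrum (𝓞 K), Real.log
      (max (FinitePlace.mk v (x 0)) (max (FinitePlace.mk v (x 1)) (FinitePlace.mk v (x 2))))) /
    (Module.finrank ℚ K : ℝ)

/-- `log N(x_0, x_1, x_2)` -/
noncomputable def conductor (x : Fin 3 → K) : ℝ :=
  (∑ᶠ (v : HeightOneSpectrum (𝓞 K)) (_ : ¬ (FinitePlace.mk v (x 0) = FinitePlace.mk v (x 1) ∧
      FinitePlace.mk v (x 1) = FinitePlace.mk v (x 2))),
    Real.log (Ideal.absNorm v.asIdeal : ℝ)) / (Module.finrank ℚ K : ℝ)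

variable (K) in
/-- `log δ_K` -/
noncomputable def rootDisc : ℝ := Real.log |(NumberField.discr K : ℝ)| / (Module.finrank ℚ K : ℝ)

end Defs

/-- the algebraic numbers `x` of the prime degree `n` for which `P K t` holds, where `K = ℚ(x)` and `t`
is `x` as an element of `K` -/
def Deg (n : ℕ) (P : ∀ (K : IntermediateField ℚ (AlgebraicClosure ℚ)) [NumberField K], K → Prop) :
    Set (AlgebraicClosure ℚ) :=
  {x | ∃ (K : IntermediateField ℚ (AlgebraicClosure ℚ)) (_ : NumberField K) (t : K),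
    (t : AlgebraicClosure ℚ) = x ∧ Module.finrank ℚ K = n ∧ (∀ q : ℚ, t ≠ algebraMap ℚ K q) ∧
      P K t}

/-- `x` violates the inequality `H ≤ exp(c) * (δ_K * N) ^ κ` -/
def Violates (κ c : ℝ) (K : IntermediateField ℚ (AlgebraicClosure ℚ)) [NumberField K] (t : K) :
    Prop :=
  c + κ * (rootDisc K + conductor ![t, 1 - t, -1]) < height ![t, 1 - t, -1]

/-- the inequality `(δ_K * N) ^ (1 - ε) ≤ H ^ e ≤ (δ_K * N) ^ (1 + ε)` does not hold -/
def Unlike (e ε : ℝ) (K : IntermediateField ℚ (AlgebraicClosure ℚ)) [NumberField K] (t : K) : Prop :=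
  ¬ |e * height ![t, 1 - t, -1] - (rootDisc K + conductor ![t, 1 - t, -1])| ≤
    ε * (rootDisc K + conductor ![t, 1 - t, -1])

/-- the numbers `x` of degree `n` with `P` and `dist(ξ, φ x) ≤ A * H(x, 1 - x, -1) ^ (-τ)` -/
def Near {M : Type} [MetricSpace M] (n : ℕ) (φ : AlgebraicClosure ℚ → M) (A τ : ℝ) (ξ : M)
    (P : ∀ (K : IntermediateField ℚ (AlgebraicClosure ℚ)) [NumberField K], K → Prop) :
    Set (AlgebraicClosure ℚ) :=
  Deg n fun K _ t => dist ξ (φ (t : AlgebraicClosure ℚ)) ≤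
    A * Real.exp (-(τ * height ![t, 1 - t, -1])) ∧ P K t

/-- the numbers of degree `n` and height `H(x, 1 - x, -1) ≤ B` -/
def Points (n : ℕ) (B : ℝ) : Set (AlgebraicClosure ℚ) :=
  Deg n fun _ _ t => height ![t, 1 - t, -1] ≤ Real.log B

/-- those which violate `H ≤ exp(c) * (δ_K * N) ^ κ` -/
def Violators (n : ℕ) (κ c B : ℝ) : Set (AlgebraicClosure ℚ) :=
  Deg n fun K _ t => height ![t, 1 - t, -1] ≤ Real.log B ∧
    c + κ * (rootDisc K + conductor ![t, 1 - t, -1]) < height ![t, 1 - t, -1]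

/-- the numbers of degree `n`, of any height, with `H ≤ exp(c) * (δ_K * N) ^ κ` -/
def Satisfying (n : ℕ) (κ c : ℝ) : Set (AlgebraicClosure ℚ) :=
  Deg n fun K _ t =>
    height ![t, 1 - t, -1] ≤ c + κ * (rootDisc K + conductor ![t, 1 - t, -1])

theorem size_nonneg {K : Type} [Field K] [NumberField K] (x : Fin 3 → K) :
    0 ≤ rootDisc K + conductor x :=
  add_nonneg (div_nonneg (Real.log_nonneg W222.UABC.one_le_disc) (Nat.cast_nonneg _))
    (W222.UABC.conductor_nonneg x)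

/-- what we need for the degree `n`: there are finitely many numbers of bounded height, the conductor is
bounded in terms of the height, and the violators have a smaller exponent -/
def Data (n : ℕ) (d e : ℝ) : Prop :=
  (∀ R : ℝ, (Deg n fun _ _ t => height ![t, 1 - t, -1] ≤ R).Finite) ∧
  (∃ C : ℝ, ∀ (K : Type) [Field K] [NumberField K], Module.finrank ℚ K = n → ∀ x : K,
    (∀ q : ℚ, x ≠ algebraMap ℚ K q) →
      rootDisc K + conductor ![x, 1 - x, -1] ≤ e * height ![x, 1 - x, -1] + C) ∧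
  ∀ κ : ℝ, 1 / e < κ → ∃ a C : ℝ, 0 ≤ a ∧ a < d ∧ ∀ k : ℕ,
    (Violators n κ 0 (Real.exp (k + 1))).Finite ∧
    ((Violators n κ 0 (Real.exp (k + 1))).ncard : ℝ) ≤ C * Real.exp (a * k)

theorem finite_of {n : ℕ} {C : ℝ} {m : ℕ} (h : ∀ B : ℝ, 1 ≤ B → (Points n B).Finite ∧
    ((Points n B).ncard : ℝ) ≤ C * B ^ m) (R : ℝ) :
    (Deg n fun _ _ t => height ![t, 1 - t, -1] ≤ R).Finite := by
  refine (h _ (le_max_right (Real.exp R) 1)).1.subset ?_
  rintro x ⟨K, h, t, h1, h2, h3, h4⟩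
  refine ⟨K, h, t, h1, h2, h3, h4.trans ?_⟩
  rw [Real.le_log_iff_exp_le (by positivity)]
  exact le_max_left _ _

theorem count_of {n : ℕ} {κ d b M : ℝ} (hM : 0 ≤ M) (hb : b < d) (hd : 0 < d)
    (h : ∀ B : ℝ, 1 ≤ B → (Violators n κ 0 B).Finite ∧
      ((Violators n κ 0 B).ncard : ℝ) ≤ M * B ^ b) : ∃ a C : ℝ, 0 ≤ a ∧ a < d ∧ ∀ k : ℕ,
    (Violators n κ 0 (Real.exp (k + 1))).Finite ∧
    ((Violators n κ 0 (Real.exp (k + 1))).ncard : ℝ) ≤ C * Real.exp (a * k) := by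
  refine ⟨max b 0, M * Real.exp (max b 0), le_max_right _ _, max_lt hb hd, fun k => ?_⟩
  have hB1 : (1 : ℝ) ≤ Real.exp (k + 1) := Real.one_le_exp (by positivity)
  have h1 := h _ hB1
  refine ⟨h1.1, h1.2.trans ?_⟩
  rw [← Real.exp_mul, mul_assoc, ← Real.exp_add]
  refine mul_le_mul_of_nonneg_left (Real.exp_le_exp.2 ?_) hM
  have h2 : b ≤ max b 0 := le_max_left _ _
  have h3 : (0 : ℝ) ≤ (k : ℝ) + 1 := by positivity
  nlinarith

/-! ## Degree three -/

theorem points3_iff (B : ℝ) (x : AlgebraicClosure ℚ) : x ∈ Points 3 B ↔ K1H46.CP.Cub3 B x := Iff.rfl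

theorem viol3_iff (κ c B : ℝ) (x : AlgebraicClosure ℚ) :
    x ∈ Violators 3 κ c B ↔ K1H46.CP.Vio κ c B x := by
  constructor
  · rintro ⟨K, h, t, h1, h2, h3, h4, h5⟩
    exact ⟨K, h, t, h1, h2, h3, h4, h5⟩
  · rintro ⟨K, h, t, h1, h2, h3, h4, h5⟩
    exact ⟨K, h, t, h1, h2, h3, h4, h5⟩

theorem t_TAIL : K1H46.CP.S_TAIL := by
  obtain ⟨C, hC, h⟩ := K1H46.CP.bad_card (K1H69.CP.t_MID K1H4.CP.t_DBL K1H69.CP.t_FIX)
    K1H22.CP.t_TRI (K1H61.CP.t_SQF K1H92.CP.t_CLS) K1H58.CPP.t_POW K1H10.CP.t_SMO K1H58.CP.t_SML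
  intro η C0 h1 h2 h3
  exact K1H46.CP.tail hC h h1 h2 h3

theorem points3_up {B : ℝ} (hB : 1 ≤ B) : (Points 3 B).Finite ∧
    ((Points 3 B).ncard : ℝ) ≤ 3 * 65 ^ 4 * B ^ 12 :=
  W222.UABC.ncard_le_of _ _ fun E hE =>
    K1H46.CP.cub_up K1H22.CP.t_DEG K1H22.CP.t_IND hB E fun x hx =>
      (points3_iff B x).1 (hE (Finset.mem_coe.2 hx))

theorem data3 : Data 3 12 7 := by
  refine ⟨finite_of fun B hB => points3_up hB, ⟨_, fun K _ _ hK _ hirr => K1H46.CP.up K1H22.CP.t_DEG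
    K1H22.CP.t_IND hK hirr⟩, fun κ hκ => ?_⟩
  obtain ⟨ν, M, hν, hM, h⟩ := K1H46.CP.vio_up (c := 0) K1H22.CP.t_DEG K1H22.CP.t_IND t_TAIL hκ
  exact count_of hM.le (by linarith : 12 - ν < 12) (by norm_num) fun B hB =>
    W222.UABC.ncard_le_of _ _ fun E hE => h B hB E fun x hx =>
      (viol3_iff κ 0 B x).1 (hE (Finset.mem_coe.2 hx))

/-! ## Degree two -/

theorem points2_iff (B : ℝ) (x : AlgebraicClosure ℚ) : x ∈ Points 2 B ↔ R365.QP.Quad2 B x := Iff.rfl

theorem viol2_iff (κ c B : ℝ) (x : AlgebraicClosure ℚ) :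
    x ∈ Violators 2 κ c B ↔ R365.QP.Vio κ c B x := by
  constructor
  · rintro ⟨K, h, t, h1, h2, h3, h4, h5⟩
    exact ⟨K, h, t, h1, h2, h3, h4, h5⟩
  · rintro ⟨K, h, t, h1, h2, h3, h4, h5⟩
    exact ⟨K, h, t, h1, h2, h3, h4, h5⟩

theorem points2_up {B : ℝ} (hB : 1 ≤ B) : (Points 2 B).Finite ∧
    ((Points 2 B).ncard : ℝ) ≤ 13718 * B ^ 6 :=
  W222.UABC.ncard_le_of _ _ fun E hE => R365.QP.quad_up hB E fun x hx =>
    (points2_iff B x).1 (hE (Finset.mem_coe.2 hx))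

theorem data2 : Data 2 6 5 := by
  refine ⟨finite_of fun B hB => points2_up hB, ⟨_, fun K _ _ hK _ hirr => R365.QP.up R365.QP.t_DISC hK
    hirr⟩, fun κ hκ => ?_⟩
  obtain ⟨κ', hκ'⟩ : ∃ κ' : ℝ, κ' = min κ (1 / 4) := ⟨_, rfl⟩
  have h1 : 1 / 5 < κ' := by rw [hκ']; exact lt_min hκ (by norm_num)
  have h2 : κ' ≤ 1 / 4 := by rw [hκ']; exact min_le_right _ _
  have h3 : κ' ≤ κ := by rw [hκ']; exact min_le_left _ _
  have h0 : 0 < κ' := by linarith
  have h5 : 1 / κ' < 5 := by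
    rw [div_lt_iff₀ h0]
    linarith
  obtain ⟨ν, hν⟩ : ∃ ν : ℝ, ν = (5 - 1 / κ') / 2 := ⟨_, rfl⟩
  have hν0 : 0 < ν := by rw [hν]; linarith
  obtain ⟨M, hM, h⟩ := R365.QP.vio_up (c := 0) R365.QP.t_DISC R365.QP.t_COUNT
    (R365.QP.t_JUP R365.QP.t_SQ R365.QP.t_RAD2 R365.QP.t_COUNT) h1.le h2 hν0
  refine count_of hM.le (by rw [hν]; linarith : 1 + 1 / κ' + ν < 6) (by norm_num) fun B hB => ?_
  have g1 := W222.UABC.ncard_le_of (Violators 2 κ' 0 B) _ fun E hE => h B hB E fun x hx =>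
    (viol2_iff κ' 0 B x).1 (hE (Finset.mem_coe.2 hx))
  have hsub : Violators 2 κ 0 B ⊆ Violators 2 κ' 0 B := by
    rintro x ⟨K, hK, t, k1, k2, k3, k4, k5⟩
    refine ⟨K, hK, t, k1, k2, k3, k4, lt_of_le_of_lt ?_ k5⟩
    have := mul_le_mul_of_nonneg_right h3 (size_nonneg ![t, 1 - t, -1])
    linarith
  refine ⟨g1.1.subset hsub, le_trans ?_ g1.2⟩
  exact_mod_cast Set.ncard_le_ncard hsub g1.1

/-! ## The argument -/

theorem satisfying_finite {n : ℕ} {d e : ℝ} (he : 0 < e) (hD : Data n d e) {κ c : ℝ}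
    (hκ : κ < 1 / e) : (Satisfying n κ c).Finite := by
  obtain ⟨C, hC⟩ := hD.2.1
  have h3 : 0 < 1 - e * κ := by
    rw [lt_div_iff₀ he] at hκ
    linarith
  refine (hD.1 (max c ((c + |κ| * |C|) / (1 - e * κ)))).subset ?_
  rintro x ⟨K, hK, t, k1, k2, k3, k4⟩
  refine ⟨K, hK, t, k1, k2, k3, ?_⟩
  have h1 := hC K k2 t k3
  have h2 := size_nonneg ![t, 1 - t, -1]
  obtain ⟨h, hh⟩ : ∃ h : ℝ, h = height ![t, 1 - t, -1] := ⟨_, rfl⟩
  obtain ⟨l, hl⟩ : ∃ l : ℝ, l = rootDisc K + conductor ![t, 1 - t, -1] := ⟨_, rfl⟩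
  rw [← hh, ← hl] at k4
  rw [← hh, ← hl] at h1
  rw [← hl] at h2
  change height ![t, 1 - t, -1] ≤ _
  rw [← hh]
  rcases le_or_gt κ 0 with h0 | h0
  · refine le_trans ?_ (le_max_left _ _)
    have := mul_nonpos_of_nonpos_of_nonneg h0 h2
    linarith
  · refine le_trans ?_ (le_max_right _ _)
    rw [le_div_iff₀ h3, abs_of_pos h0]
    have h4 := mul_le_mul_of_nonneg_left h1 h0.le
    have h5 := mul_le_mul_of_nonneg_left (le_abs_self C) h0.le
    linarith

/-- the Borel-Cantelli argument for one exponent -/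
theorem one {n : ℕ} {d e : ℝ} (hD : Data n d e) {κ : ℝ} (hκ : 1 / e < κ) : ∃ a : ℝ, a < d ∧
    ∀ (M : Type) [MetricSpace M] [MeasurableSpace M] [BorelSpace M] (φ : AlgebraicClosure ℚ → M)
      (s : ℝ), 0 < s → ∀ τ : ℝ, 0 ≤ τ → a < s * τ → ∀ A : ℕ,
      μH[s] {ξ : M | (Near n φ A τ ξ (fun K _ t => 0 ≤ height ![t, 1 - t, -1] ∧
        Violates κ 0 K t)).Infinite} = 0 := by
  obtain ⟨a, C, ha, had, h⟩ := hD.2.2 κ hκ
  refine ⟨a, had, fun M _ _ _ φ s hs τ hτ0 hτ A => ?_⟩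
  refine measure_mono_null ?_ (Pool.Agent.K1H84.CA.null φ
    (fun k : ℕ => Violators n κ 0 (Real.exp (k + 1))) ha h hs hτ A)
  intro ξ hξ
  have hex : ∀ x : Near n φ A τ ξ (fun K _ t => 0 ≤ height ![t, 1 - t, -1] ∧ Violates κ 0 K t),
      ∃ k : ℕ, x.1 ∈ Violators n κ 0 (Real.exp (k + 1)) ∧
        dist ξ (φ x.1) ≤ A * Real.exp (-(τ * k)) := by
    rintro ⟨x, K, hK, t, rfl, h2, h3, h4, h5, h6⟩
    refine ⟨⌊height ![t, 1 - t, -1]⌋₊, ⟨K, hK, t, rfl, h2, h3, ?_, h6⟩, h4.trans ?_⟩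
    · rw [Real.log_exp]
      exact (Nat.lt_floor_add_one _).le
    · refine mul_le_mul_of_nonneg_left (Real.exp_le_exp.2 (neg_le_neg ?_)) (Nat.cast_nonneg A)
      exact mul_le_mul_of_nonneg_left (Nat.floor_le h5) hτ0
  choose k hk1 hk2 using hex
  have hinj : Function.Injective (fun x : Near n φ A τ ξ
      (fun K _ t => 0 ≤ height ![t, 1 - t, -1] ∧ Violates κ 0 K t) =>
      (⟨k x, x.1, hk1 x⟩ : Σ k : ℕ, Violators n κ 0 (Real.exp (k + 1)))) := by
    intro x y hxy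
    have := congrArg (fun i : (Σ k : ℕ, Violators n κ 0 (Real.exp (k + 1))) => i.2.1) hxy
    exact Subtype.ext this
  have hinf : Infinite (Near n φ A τ ξ
      (fun K _ t => 0 ≤ height ![t, 1 - t, -1] ∧ Violates κ 0 K t)) := Set.infinite_coe_iff.2 hξ
  refine (Set.infinite_range_of_injective hinj).mono ?_
  rintro i ⟨x, rfl⟩
  exact hk2 x

theorem near_small {n : ℕ} {d e : ℝ} (hD : Data n d e) {M : Type} [MetricSpace M]
    (φ : AlgebraicClosure ℚ → M) (A τ R : ℝ) (ξ : M)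
    (P : ∀ (K : IntermediateField ℚ (AlgebraicClosure ℚ)) [NumberField K], K → Prop) :
    (Near n φ A τ ξ (fun K _ t => height ![t, 1 - t, -1] ≤ R ∧ P K t)).Finite := by
  refine (hD.1 R).subset ?_
  rintro x ⟨K, hK, t, h1, h2, h3, -, h4, -⟩
  exact ⟨K, hK, t, h1, h2, h3, h4⟩

/-- a larger exponent and a constant -/
theorem near_viol {n : ℕ} {d e : ℝ} (hD : Data n d e) {M : Type} [MetricSpace M]
    {φ : AlgebraicClosure ℚ → M} {A τ : ℝ} {ξ : M}
    {κ' κ : ℝ} (hκ' : 0 < κ') (hκ : κ' < κ) (c : ℝ) {B : ℕ} (hB : A ≤ B)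
    (h : (Near n φ B τ ξ (fun K _ t => 0 ≤ height ![t, 1 - t, -1] ∧ Violates κ' 0 K t)).Finite) :
    (Near n φ A τ ξ (Violates κ c)).Finite := by
  have hκ0 : 0 < κ := hκ'.trans hκ
  refine ((near_small hD φ A τ (max 0 (κ' * |c| / (κ - κ'))) ξ (Violates κ c)).union h).subset ?_
  rintro x ⟨K, hK, t, h1, h2, h3, h4, h5⟩
  by_cases h6 : height ![t, 1 - t, -1] ≤ max 0 (κ' * |c| / (κ - κ'))
  · exact Or.inl ⟨K, hK, t, h1, h2, h3, h4, h6, h5⟩
  · right
    push Not at h6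
    have h7 : 0 < height ![t, 1 - t, -1] := (le_max_left _ _).trans_lt h6
    have h8 : κ' * |c| / (κ - κ') < height ![t, 1 - t, -1] := (le_max_right _ _).trans_lt h6
    refine ⟨K, hK, t, h1, h2, h3, h4.trans (mul_le_mul_of_nonneg_right hB (Real.exp_pos _).le),
      h7.le, ?_⟩
    unfold Violates at h5 ⊢
    rw [div_lt_iff₀ (by linarith)] at h8
    obtain ⟨l, hl⟩ : ∃ l : ℝ, l = rootDisc K + conductor ![t, 1 - t, -1] := ⟨_, rfl⟩
    obtain ⟨y, hy⟩ : ∃ y : ℝ, y = height ![t, 1 - t, -1] := ⟨_, rfl⟩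
    rw [← hl, ← hy] at h5
    rw [← hy] at h8
    rw [← hl, ← hy, zero_add]
    have h9 : κ * (κ' * l) < κ * y := by
      have g1 := mul_lt_mul_of_pos_left h5 hκ'
      have g2 : -(κ' * |c|) ≤ κ' * c := by
        have := mul_le_mul_of_nonneg_left (neg_abs_le c) hκ'.le
        linarith
      nlinarith
    exact lt_of_mul_lt_mul_left h9 hκ0.le

theorem near_unlike {n : ℕ} {d e : ℝ} (he : 0 < e) (hD : Data n d e) {M : Type} [MetricSpace M]
    {φ : AlgebraicClosure ℚ → M} {A τ : ℝ} {ξ : M}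
    {ε : ℝ} (hε : 0 < ε) {η : ℝ} (hη : 0 ≤ η)
    (h : (Near n φ |A| (τ - η) ξ (Violates ((1 + ε) / e) 0)).Finite) :
    (Near n φ A τ ξ (Unlike e ε)).Finite := by
  have h4 : (Satisfying n ((1 - ε) / e) 0).Finite :=
    satisfying_finite he hD (div_lt_div_of_pos_right (by linarith) he)
  refine (((near_small hD φ A τ 0 ξ (Unlike e ε)).union h).union h4).subset ?_
  rintro x ⟨K, hK, t, h1, h2, h3, h5, h6⟩
  by_cases h7 : height ![t, 1 - t, -1] ≤ 0
  · exact Or.inl (Or.inl ⟨K, hK, t, h1, h2, h3, h5, h7, h6⟩)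
  push Not at h7
  unfold Unlike at h6
  rw [abs_le, not_and_or] at h6
  obtain ⟨l, hl⟩ : ∃ l : ℝ, l = rootDisc K + conductor ![t, 1 - t, -1] := ⟨_, rfl⟩
  rcases h6 with h6 | h6
  · right
    push Not at h6
    refine ⟨K, hK, t, h1, h2, h3, ?_⟩
    change height ![t, 1 - t, -1] ≤ 0 + (1 - ε) / e * (rootDisc K + conductor ![t, 1 - t, -1])
    rw [← hl] at h6 ⊢
    rw [zero_add, div_mul_eq_mul_div, le_div_iff₀ he]
    linarith
  · left; right
    push Not at h6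
    refine ⟨K, hK, t, h1, h2, h3, h5.trans ?_, ?_⟩
    · refine mul_le_mul (le_abs_self A) (Real.exp_le_exp.2 (neg_le_neg ?_)) (Real.exp_pos _).le
        (abs_nonneg A)
      exact mul_le_mul_of_nonneg_right (by linarith) h7.le
    · change 0 + (1 + ε) / e * (rootDisc K + conductor ![t, 1 - t, -1]) < height ![t, 1 - t, -1]
      rw [← hl] at h6 ⊢
      rw [zero_add, div_mul_eq_mul_div, div_lt_iff₀ he]
      linarith

/-- **Metric spaces.** -/
theorem metric {n : ℕ} {d e : ℝ} (hd : 0 < d) (he : 0 < e) (hD : Data n d e)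
    (M : Type) [MetricSpace M] [MeasurableSpace M] [BorelSpace M]
    (φ : AlgebraicClosure ℚ → M) (s : ℝ) (hs : 0 < s) : ∃ E : Set M, μH[s] E = 0 ∧
      (∀ κ : ℝ, 1 / e < κ → ∃ η : ℝ, 0 < η ∧ ∀ ξ : M, ξ ∉ E → ∀ c A : ℝ,
        (Near n φ A (d / s - η) ξ (Violates κ c)).Finite) ∧
      ∀ ξ : M, ξ ∉ E → ∀ A ε : ℝ, 0 < ε → (Near n φ A (d / s) ξ (Unlike e ε)).Finite := by
  have hk : ∀ m : ℕ, (1 : ℝ) / e < 1 / e + 1 / (m + 1) := fun m => by
    have : (0 : ℝ) < 1 / (m + 1) := by positivity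
    linarith
  choose a ha h using fun m : ℕ => one hD (hk m)
  -- the exponents
  have hη : ∀ m : ℕ, ∃ η : ℝ, 0 < η ∧ 0 ≤ d / s - η ∧ a m < s * (d / s - η) := by
    intro m
    refine ⟨min ((d - a m) / (2 * s)) (d / s), lt_min (div_pos (by linarith [ha m]) (by positivity))
      (by positivity), by linarith [min_le_right ((d - a m) / (2 * s)) (d / s)], ?_⟩
    have h1 : s * min ((d - a m) / (2 * s)) (d / s) ≤ (d - a m) / 2 := by
      calc s * min ((d - a m) / (2 * s)) (d / s) ≤ s * ((d - a m) / (2 * s)) :=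
            mul_le_mul_of_nonneg_left (min_le_left _ _) hs.le
        _ = (d - a m) / 2 := by field_simp
    have h2 : s * (d / s) = d := by field_simp
    rw [mul_sub, h2]
    linarith [ha m]
  choose η hη0 hη1 hη2 using hη
  set E : Set M := ⋃ m : ℕ, ⋃ A : ℕ, {ξ : M | (Near n φ A (d / s - η m) ξ
    (fun K _ t => 0 ≤ height ![t, 1 - t, -1] ∧
      Violates (1 / e + 1 / (m + 1)) 0 K t)).Infinite} with hE
  have hmain : ∀ κ : ℝ, 1 / e < κ → ∃ η' : ℝ, 0 < η' ∧ ∀ ξ : M, ξ ∉ E → ∀ c A : ℝ,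
      (Near n φ A (d / s - η') ξ (Violates κ c)).Finite := by
    intro κ hκ
    obtain ⟨m, hm⟩ := exists_nat_one_div_lt (show (0 : ℝ) < κ - 1 / e by linarith)
    refine ⟨η m, hη0 m, fun ξ hξ c A => ?_⟩
    obtain ⟨B, hB⟩ := exists_nat_ge A
    refine near_viol hD (κ' := 1 / e + 1 / ((m : ℝ) + 1)) (by positivity) (by linarith) c hB ?_
    by_contra hcon
    exact hξ (Set.mem_iUnion₂.2 ⟨m, B, hcon⟩)
  refine ⟨E, ?_, hmain, fun ξ hξ A ε hε => ?_⟩
  · rw [hE, measure_iUnion_null_iff]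
    intro m
    rw [measure_iUnion_null_iff]
    intro A
    exact h m M φ s hs _ (hη1 m) (hη2 m) A
  · obtain ⟨η', h1, h2⟩ := hmain ((1 + ε) / e) (div_lt_div_of_pos_right (by linarith) he)
    exact near_unlike he hD hε h1.le (h2 ξ hξ 0 |A|)

theorem real {n : ℕ} {d e : ℝ} (hd : 0 < d) (he : 0 < e) (hD : Data n d e)
    (σ : AlgebraicClosure ℚ →+* ℂ) : ∀ᵐ ξ : ℝ, ∀ A ε : ℝ, 0 < ε →
      (Near n (fun x => σ x) A d (ξ : ℂ) (Unlike e ε)).Finite := by
  obtain ⟨E, hE, -, h⟩ := metric hd he hD ℝ (fun x => (σ x).re) 1 one_pos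
  rw [hausdorffMeasure_real] at hE
  have hE' : ∀ᵐ ξ : ℝ, ξ ∉ E := measure_eq_zero_iff_ae_notMem.1 hE
  filter_upwards [hE'] with ξ hξ A ε hε
  refine (h ξ hξ A ε hε).subset ?_
  rintro x ⟨K, hK, t, h1, h2, h3, h4, h5⟩
  refine ⟨K, hK, t, h1, h2, h3, ?_, h5⟩
  rw [div_one]
  refine le_trans ?_ h4
  rw [Real.dist_eq, Complex.dist_eq]
  have := Complex.abs_re_le_norm ((ξ : ℂ) - σ (t : AlgebraicClosure ℚ))
  rwa [Complex.sub_re, Complex.ofReal_re] at this

theorem cplx {n : ℕ} {d e : ℝ} (hd : 0 < d) (he : 0 < e) (hD : Data n d e)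
    (σ : AlgebraicClosure ℚ →+* ℂ) : ∀ᵐ ξ : ℂ, ∀ A ε : ℝ, 0 < ε →
      (Near n (fun x => σ x) A (d / 2) ξ (Unlike e ε)).Finite := by
  obtain ⟨E, hE, -, h⟩ := metric hd he hD (ℝ × ℝ) (fun x => ((σ x).re, (σ x).im)) 2 two_pos
  rw [hausdorffMeasure_prod_real] at hE
  have hE' : ∀ᵐ z : ℝ × ℝ, z ∉ E := measure_eq_zero_iff_ae_notMem.1 hE
  have hE2 : ∀ᵐ ξ : ℂ, Complex.measurableEquivRealProd ξ ∉ E :=
    Complex.volume_preserving_equiv_real_prod.quasiMeasurePreserving.ae hE'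
  filter_upwards [hE2] with ξ hξ A ε hε
  refine (h _ hξ A ε hε).subset ?_
  rintro x ⟨K, hK, t, h1, h2, h3, h4, h5⟩
  refine ⟨K, hK, t, h1, h2, h3, ?_, h5⟩
  refine le_trans ?_ h4
  have e : Complex.measurableEquivRealProd ξ = (ξ.re, ξ.im) := rfl
  rw [e, Prod.dist_eq, Complex.dist_eq]
  refine max_le ?_ ?_
  · have := Complex.abs_re_le_norm (ξ - σ (t : AlgebraicClosure ℚ))
    rwa [Complex.sub_re] at this
  · have := Complex.abs_im_le_norm (ξ - σ (t : AlgebraicClosure ℚ))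
    rwa [Complex.sub_im] at this

/-- **Theorem.** Let `n = 2` or `n = 3`. For `x` of degree `n` let `K = ℚ(x)`, let `H`, `N` be the height
and the conductor of `(x, 1 - x, -1)` and `δ` the root discriminant of `K`.
(1) Let `M` be a metric space, `φ` any map from the algebraic numbers to `M` and `s > 0`. There is a set
`E` of `s`-dimensional Hausdorff measure zero such that: for every `κ > 1 / (2 n + 1)` there is `η > 0`
such that for all `ξ` outside `E` and all `c`, `A` only finitely many `x` of degree `n` with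
`dist(ξ, φ x) ≤ A H ^ (-(n (n + 1) / s - η))` violate `H ≤ exp(c) (δ N) ^ κ`; and for all `ξ` outside `E`
and all `A` and `ε > 0`, all but finitely many of the `x` of degree `n` with
`dist(ξ, φ x) ≤ A H ^ (-n (n + 1) / s)` satisfy `(δ N) ^ (1 - ε) ≤ H ^ (2 n + 1) ≤ (δ N) ^ (1 + ε)`.
(2) For every embedding of the algebraic numbers in the complex numbers and almost every real `ξ`, for
all `A` and `ε > 0`, all but finitely many of the `x` of degree `n` with
`|ξ - x| ≤ A H ^ (-n (n + 1))` satisfy this inequality.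
(3) The same for almost every complex `ξ` and `|ξ - x| ≤ A H ^ (-n (n + 1) / 2)`. -/
theorem result (n : ℕ) (hn : n = 2 ∨ n = 3) :
    (∀ (M : Type) [MetricSpace M] [MeasurableSpace M] [BorelSpace M]
      (φ : AlgebraicClosure ℚ → M) (s : ℝ), 0 < s → ∃ E : Set M, μH[s] E = 0 ∧
        (∀ κ : ℝ, 1 / (2 * (n : ℝ) + 1) < κ → ∃ η : ℝ, 0 < η ∧ ∀ ξ : M, ξ ∉ E → ∀ c A : ℝ,
          (Near n φ A (n * (n + 1) / s - η) ξ (Violates κ c)).Finite) ∧
        ∀ ξ : M, ξ ∉ E → ∀ A ε : ℝ, 0 < ε →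
          (Near n φ A (n * (n + 1) / s) ξ (Unlike (2 * n + 1) ε)).Finite) ∧
    (∀ σ : AlgebraicClosure ℚ →+* ℂ, ∀ᵐ ξ : ℝ, ∀ A ε : ℝ, 0 < ε →
      (Near n (fun x => σ x) A (n * (n + 1)) (ξ : ℂ) (Unlike (2 * n + 1) ε)).Finite) ∧
    ∀ σ : AlgebraicClosure ℚ →+* ℂ, ∀ᵐ ξ : ℂ, ∀ A ε : ℝ, 0 < ε →
      (Near n (fun x => σ x) A (n * (n + 1) / 2) ξ (Unlike (2 * n + 1) ε)).Finite := by
  have hD : Data n (n * (n + 1)) (2 * n + 1) := by
    rcases hn with rfl | rfl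
    · have h1 : (((2 : ℕ) : ℝ) * (((2 : ℕ) : ℝ) + 1)) = 6 := by norm_num
      have h2 : (2 * ((2 : ℕ) : ℝ) + 1) = 5 := by norm_num
      rw [h1, h2]
      exact data2
    · have h1 : (((3 : ℕ) : ℝ) * (((3 : ℕ) : ℝ) + 1)) = 12 := by norm_num
      have h2 : (2 * ((3 : ℕ) : ℝ) + 1) = 7 := by norm_num
      rw [h1, h2]
      exact data3
  have hn0 : (0 : ℝ) < n := by
    rcases hn with rfl | rfl <;> norm_num
  have hd : (0 : ℝ) < n * (n + 1) := by positivity
  have he : (0 : ℝ) < 2 * n + 1 := by positivity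
  exact ⟨metric hd he hD, real hd he hD, cplx hd he hD⟩

end Pool.Agent.Results.MP_6e34ef_nt.ApproximationsSharp
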