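import Mathlib
import Pool.Agent.K1H46.CP.Vio
import Pool.Agent.K1H22.CP.CP_IND
import Pool.Agent.K1H22.CP.CP_TRI
import Pool.Agent.K1H4.CP.CP_DBL
import Pool.Agent.K1H4.CP.CP_CNT
import Pool.Agent.K1H10.CP.Smo
import Pool.Agent.K1H26.CP.CP_EIS
import Pool.Agent.K1H58.CP_POW
import Pool.Agent.K1H58.CP_SML
import Pool.Agent.K1H61.CP.Sqf
import Pool.Agent.K1H69.CP.FIX
import Pool.Agent.K1H69.CP.MID
import Pool.Agent.K1H89.CP.HGT
import Pool.Agent.K1H92.CP.Cls

/-!
# The uniform abc inequality for the points of degree three: the sharp exponent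

For `x` of degree three let `K = ℚ(x)`, and let `H`, `N` be the height and the conductor of the
triple `(x, 1 - x, -1)` and `δ` the root discriminant of `K`. The uniform abc inequality is
`H ≤ C (δ N) ^ (1 + ε)`. We show that `δ N ≤ C H ^ 7` for all `x`, that for every `κ > 1 / 7` and every
`c` the inequality `H ≤ exp(c) (δ N) ^ κ` holds for 100% of all `x` ordered by the height, with a
power saving, and that for `κ < 1 / 7` it holds for finitely many `x` only: `H` is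
`(δ N) ^ (1 / 7 + o(1))` for 100% of all `x` of degree three.

`x` is a zero of a binary cubic form `f` with integral coefficients of size `N = B ^ 3`, and
`disc f = k ^ 2 D_K`. The forms with `|k| > N ^ η` are at most `N ^ (4 - ν)`: if `k` has a prime
divisor `p` between `N ^ η` and `N ^ (2 - η)`, then `p ^ 2` divides the value of `f` at a primitive
vector `w` of length at most `√p` and `p` divides the gradient at `w` (or `p` divides the Hessian),
and these forms are counted for each `w`; if `k` has a prime divisor `p > N ^ (2 - η)`, then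
`|D_K| ≤ N ^ (3 η)`, and there are few such fields; if all primes dividing `k` are small, then `k` has
a divisor of controlled size which is square free or an eighth power, and the forms are counted in
residue classes and by three consecutive values of a quadratic polynomial.
-/

set_option autoImplicit false

namespace Pool.Agent.Results.MP_6e34ef_nt.CubicPointsSharp

open NumberField IsDedekindDomain

section Defs

variable {K : Type} [Field K] [NumberField K]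

/-- `log H(x_0, x_1, x_2)` -/
noncomputable def height (x : Fin 3 → K) : ℝ :=
  (∑ w : InfinitePlace K, (w.mult : ℝ) * Real.log (max (w (x 0)) (max (w (x 1)) (w (x 2)))) +
    ∑ᶠ v : HeightOneSpectrum (𝓞 K), Real.log
      (max (FinitePlace.mk v (x 0)) (max (FinitePlace.mk v (x 1)) (FinitePlace.mk v (x 2))))) /
    (Module.finrank ℚ K : ℝ)

/-- `log N(x_0, x_1, x_2)` -/
noncomputable def conductor (x : Fin 3 → K) : ℝ :=
  (∑ᶠ (v : HeightOneSpectrum (𝓞 K)) (_ : ¬ (FinitePlace.mk v (x 0) = FinitePlace.mk v (x 1) ∧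
      FinitePlace.mk v (x 1) = FinitePlace.mk v (x 2))),
    Real.log (Ideal.absNorm v.asIdeal : ℝ)) / (Module.finrank ℚ K : ℝ)

variable (K) in
/-- `log δ_K` -/
noncomputable def rootDisc : ℝ := Real.log |(NumberField.discr K : ℝ)| / (Module.finrank ℚ K : ℝ)

end Defs

/-- the algebraic numbers `x` of degree three for which `P K t` holds, where `K = ℚ(x)` and `t` is `x`
as an element of `K` -/
def Deg3 (P : ∀ (K : IntermediateField ℚ (AlgebraicClosure ℚ)) [NumberField K], K → Prop) :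
    Set (AlgebraicClosure ℚ) :=
  {x | ∃ (K : IntermediateField ℚ (AlgebraicClosure ℚ)) (_ : NumberField K) (t : K),
    (t : AlgebraicClosure ℚ) = x ∧ Module.finrank ℚ K = 3 ∧ (∀ q : ℚ, t ≠ algebraMap ℚ K q) ∧
      P K t}

/-- the numbers of degree three and height `H(x, 1 - x, -1) ≤ B` -/
def Points (B : ℝ) : Set (AlgebraicClosure ℚ) :=
  Deg3 fun _ _ t => height ![t, 1 - t, -1] ≤ Real.log B

/-- those which violate `H ≤ exp(c) * (δ_K * N) ^ κ` -/
def Violators (κ c B : ℝ) : Set (AlgebraicClosure ℚ) :=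
  Deg3 fun K _ t => height ![t, 1 - t, -1] ≤ Real.log B ∧
    c + κ * (rootDisc K + conductor ![t, 1 - t, -1]) < height ![t, 1 - t, -1]

/-- the numbers of degree three, of any height, with `H ≤ exp(c) * (δ_K * N) ^ κ` -/
def Satisfying (κ c : ℝ) : Set (AlgebraicClosure ℚ) :=
  Deg3 fun K _ t =>
    height ![t, 1 - t, -1] ≤ c + κ * (rootDisc K + conductor ![t, 1 - t, -1])

theorem points_iff (B : ℝ) (x : AlgebraicClosure ℚ) : x ∈ Points B ↔ K1H46.CP.Cub3 B x := Iff.rfl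

theorem viol_iff (κ c B : ℝ) (x : AlgebraicClosure ℚ) :
    x ∈ Violators κ c B ↔ K1H46.CP.Vio κ c B x := by
  constructor
  · rintro ⟨K, h, t, h1, h2, h3, h4, h5⟩
    exact ⟨K, h, t, h1, h2, h3, h4, h5⟩
  · rintro ⟨K, h, t, h1, h2, h3, h4, h5⟩
    exact ⟨K, h, t, h1, h2, h3, h4, h5⟩

theorem t_TAIL : K1H46.CP.S_TAIL := by
  obtain ⟨C, hC, h⟩ := K1H46.CP.bad_card (K1H69.CP.t_MID K1H4.CP.t_DBL K1H69.CP.t_FIX)
    K1H22.CP.t_TRI (K1H61.CP.t_SQF K1H92.CP.t_CLS) K1H58.CPP.t_POW K1H10.CP.t_SMO K1H58.CP.t_SML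
  intro η C0 h1 h2 h3
  exact K1H46.CP.tail hC h h1 h2 h3

theorem points_up {B : ℝ} (hB : 1 ≤ B) : (Points B).Finite ∧
    ((Points B).ncard : ℝ) ≤ 3 * 65 ^ 4 * B ^ 12 :=
  W222.UABC.ncard_le_of _ _ fun E hE =>
    K1H46.CP.cub_up K1H22.CP.t_DEG K1H22.CP.t_IND hB E fun x hx =>
      (points_iff B x).1 (hE (Finset.mem_coe.2 hx))

theorem points_finite (R : ℝ) :
    (Deg3 fun _ _ t => height ![t, 1 - t, -1] ≤ R).Finite := by
  refine (points_up (le_max_right (Real.exp R) 1)).1.subset ?_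
  rintro x ⟨K, h, t, h1, h2, h3, h4⟩
  refine ⟨K, h, t, h1, h2, h3, h4.trans ?_⟩
  rw [Real.le_log_iff_exp_le (by positivity)]
  exact le_max_left _ _

theorem size_nonneg {K : Type} [Field K] [NumberField K] (x : Fin 3 → K) :
    0 ≤ rootDisc K + conductor x :=
  add_nonneg (div_nonneg (Real.log_nonneg W222.UABC.one_le_disc) (Nat.cast_nonneg _))
    (W222.UABC.conductor_nonneg x)

theorem part_two : ∃ C : ℝ, ∀ (K : Type) [Field K] [NumberField K],
    Module.finrank ℚ K = 3 → ∀ x : K, (∀ q : ℚ, x ≠ algebraMap ℚ K q) →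
      rootDisc K + conductor ![x, 1 - x, -1] ≤ 7 * height ![x, 1 - x, -1] + C :=
  ⟨_, fun _ _ _ hK _ hirr => K1H46.CP.up K1H22.CP.t_DEG K1H22.CP.t_IND hK hirr⟩

theorem part_one : ∃ c C B₀ : ℝ, 0 < c ∧ 1 ≤ B₀ ∧ ∀ B : ℝ, B₀ ≤ B → (Points B).Finite ∧
    c * B ^ 12 ≤ ((Points B).ncard : ℝ) ∧ ((Points B).ncard : ℝ) ≤ C * B ^ 12 := by
  obtain ⟨c, B₀, hc, hB₀, h⟩ := K1H46.CP.many K1H22.CP.t_DEG K1H26.CP.t_EIS K1H89.CP.t_HGT
    K1H4.CP.t_CNT
  refine ⟨c, 3 * 65 ^ 4, B₀, hc, hB₀, fun B hB => ?_⟩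
  obtain ⟨h1, h2⟩ := points_up (hB₀.trans hB)
  obtain ⟨E, hE1, hE2⟩ := h B hB
  refine ⟨h1, hE1.trans ?_, h2⟩
  rw [← Set.ncard_coe_finset E]
  exact_mod_cast Set.ncard_le_ncard (fun x hx => (points_iff B x).2 (hE2 x (Finset.mem_coe.1 hx))) h1

theorem part_three {κ c : ℝ} (hκ : 1 / 7 < κ) : ∃ ν M B₀ : ℝ, 0 < ν ∧ ∀ B : ℝ, B₀ ≤ B →
    ((Violators κ c B).ncard : ℝ) ≤ M * B ^ (-ν) * ((Points B).ncard : ℝ) := by
  obtain ⟨ν, M, hν, hM, h⟩ := K1H46.CP.vio_up (c := c) K1H22.CP.t_DEG K1H22.CP.t_IND t_TAIL hκ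
  obtain ⟨c0, C, B₀, hc0, hB₀, hP⟩ := part_one
  refine ⟨ν, M / c0, B₀, hν, fun B hB => ?_⟩
  have hB1 : 1 ≤ B := hB₀.trans hB
  have hB0 : 0 < B := by linarith
  obtain ⟨hfin, hlow, -⟩ := hP B hB
  have h1 := (W222.UABC.ncard_le_of (Violators κ c B) _ fun E hE => h B hB1 E fun x hx =>
    (viol_iff κ c B x).1 (hE (Finset.mem_coe.2 hx))).2
  have e1 : B ^ (12 - ν) = B ^ (-ν) * B ^ 12 := by
    rw [← Real.rpow_natCast B 12, ← Real.rpow_add hB0]
    congr 1
    push_cast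
    ring
  calc ((Violators κ c B).ncard : ℝ) ≤ M * B ^ (12 - ν) := h1
    _ = M * B ^ (-ν) / c0 * (c0 * B ^ 12) := by
        rw [e1]
        field_simp
    _ ≤ M * B ^ (-ν) / c0 * ((Points B).ncard : ℝ) :=
        mul_le_mul_of_nonneg_left hlow (by positivity)
    _ = _ := by ring

theorem part_four {κ c : ℝ} (hκ : κ < 1 / 7) : (Satisfying κ c).Finite := by
  obtain ⟨C, hC⟩ := part_two
  refine (points_finite (max c ((c + |κ| * |C|) / (1 - 7 * κ)))).subset ?_
  rintro x ⟨K, hK, t, k1, k2, k3, k4⟩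
  refine ⟨K, hK, t, k1, k2, k3, ?_⟩
  have h1 := hC K k2 t k3
  have h2 := size_nonneg ![t, 1 - t, -1]
  obtain ⟨h, hh⟩ : ∃ h : ℝ, h = height ![t, 1 - t, -1] := ⟨_, rfl⟩
  obtain ⟨l, hl⟩ : ∃ l : ℝ, l = rootDisc K + conductor ![t, 1 - t, -1] := ⟨_, rfl⟩
  rw [← hh, ← hl] at k4
  rw [← hh, ← hl] at h1
  rw [← hl] at h2
  change height ![t, 1 - t, -1] ≤ _
  rw [← hh]
  rcases le_or_gt κ 0 with h0 | h0
  · refine le_trans ?_ (le_max_left _ _)
    have := mul_nonpos_of_nonpos_of_nonneg h0 h2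
    linarith
  · refine le_trans ?_ (le_max_right _ _)
    have h3 : 0 < 1 - 7 * κ := by linarith
    rw [le_div_iff₀ h3, abs_of_pos h0]
    have h4 := mul_le_mul_of_nonneg_left h1 h0.le
    have h5 := mul_le_mul_of_nonneg_left (le_abs_self C) h0.le
    linarith

/-- **Main theorem.** The algebraic numbers `x` of degree three, `K = ℚ(x)`.
(1) The number of those with `H ≤ B` is between `c * B ^ 12` and `C * B ^ 12`.
(2) `δ_K * N ≤ exp(C) * H ^ 7` for all of them.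
(3) For `κ > 1 / 7` and all `c` those with `H ≤ B` which violate `H ≤ exp(c) * (δ_K * N) ^ κ` are at
most the proportion `M * B ^ (-ν)`, `ν > 0`, of all.
(4) For `κ < 1 / 7` and all `c` only finitely many satisfy `H ≤ exp(c) * (δ_K * N) ^ κ`. -/
theorem result :
    (∃ c C B₀ : ℝ, 0 < c ∧ 1 ≤ B₀ ∧ ∀ B : ℝ, B₀ ≤ B → (Points B).Finite ∧
      c * B ^ 12 ≤ ((Points B).ncard : ℝ) ∧ ((Points B).ncard : ℝ) ≤ C * B ^ 12) ∧
    (∃ C : ℝ, ∀ (K : Type) [Field K] [NumberField K],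
      Module.finrank ℚ K = 3 → ∀ x : K, (∀ q : ℚ, x ≠ algebraMap ℚ K q) →
        rootDisc K + conductor ![x, 1 - x, -1] ≤ 7 * height ![x, 1 - x, -1] + C) ∧
    (∀ κ c : ℝ, 1 / 7 < κ → ∃ ν M B₀ : ℝ, 0 < ν ∧ ∀ B : ℝ, B₀ ≤ B →
      ((Violators κ c B).ncard : ℝ) ≤ M * B ^ (-ν) * ((Points B).ncard : ℝ)) ∧
    (∀ κ c : ℝ, κ < 1 / 7 → (Satisfying κ c).Finite) :=
  ⟨part_one, part_two, fun _ _ hκ => part_three hκ, fun _ _ hκ => part_four hκ⟩

end Pool.Agent.Results.MP_6e34ef_nt.CubicPointsSharp
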